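import Pool.Agent.H29.R2.Targets2

/-! DNA of the board r2_modules: dyadic blocks with many primes, for families of Artin
L-functions. -/

set_option autoImplicit false

open NumberField Complex Filter Topology

namespace Pool.Agent.H31.R2.DNA

open Pool.Agent.H28.RC Pool.Agent.H25.HK Pool.Agent.H25 Pool.Agent.H29.RT Pool.Agent.H29.RS
open Pool.Agent.H29.R2

/-- the traces of the Frobenius elements of one representation are bounded -/
theorem tr_bd (R : DL.ArtinRep) : ∃ C : ℝ, 0 ≤ C ∧ ∀ p : Nat.Primes,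
    ‖LinearMap.trace ℂ R.V (R.fr p)‖ ≤ C := by
  classical
  have : Finite (R.K ≃ₐ[ℚ] R.K) := inferInstance
  have : Finite (Subgroup (R.K ≃ₐ[ℚ] R.K)) := inferInstance
  set f : (R.K ≃ₐ[ℚ] R.K) × Subgroup (R.K ≃ₐ[ℚ] R.K) → ℝ := fun x =>
    ‖LinearMap.trace ℂ R.V (R.rho x.1 * R.avg x.2)‖ with hf
  obtain ⟨C, hC⟩ := (Set.finite_range f).bddAbove
  refine ⟨max C 0, le_max_right _ _, fun p => ?_⟩
  exact (hC ⟨(R.Fr p, R.In p), rfl⟩).trans (le_max_left _ _)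

theorem cb_bd {k : ℕ} (R : GFam k) (a τ : Fin k → ℝ) (c : Fin k → ℤ) (X : Fin k → ℕ → ℂ) (r : ℝ)
    (hX : R.Tr X) : ∃ C : ℝ, 0 ≤ C ∧ ∀ p : Nat.Primes, ‖cb a τ c X r p‖ ≤ C := by
  classical
  choose C hC0 hC using fun i => tr_bd (R.rep i)
  refine ⟨∑ i, |(c i : ℝ)| * C i, Finset.sum_nonneg fun i _ =>
    mul_nonneg (abs_nonneg _) (hC0 i), fun p => ?_⟩
  unfold cb
  refine (norm_sum_le _ _).trans (Finset.sum_le_sum fun i _ => ?_)
  split_ifs with h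
  · rw [norm_mul, norm_mul, Complex.norm_intCast, Complex.norm_natCast_cpow_of_pos p.2.pos]
    have h1 : ((p : ℕ) : ℝ) ^ (-(τ i * I) : ℂ).re = 1 := by simp
    rw [h1, mul_one, hX i p]
    exact mul_le_mul_of_nonneg_left (hC i p) (abs_nonneg _)
  · rw [norm_zero]
    exact mul_nonneg (abs_nonneg _) (hC0 i)

open Classical in
theorem pf_DNA (h1 : T_MEN) (h2 : T_MKL) (h3 : Pool.Agent.H29.EX.T_KAR)
    (h4 : Pool.Agent.H25.DP.T_DYD) : T_DNA := by
  intro k R a τ c X r hX hnd x₁ x₂ ε hx1 hx12 hε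
  obtain ⟨α, hα, hmean⟩ := h1 k R a τ c X r hX hnd
  obtain ⟨C, hC0, hC⟩ := cb_bd R a τ c X r hX
  set w : ℕ → ℝ := fun n => if n.Prime then ‖cb a τ c X r n‖ ^ 2 else 0 with hw
  have hw0 : ∀ n, 0 ≤ w n := by
    intro n
    simp only [hw]
    split_ifs
    · positivity
    · exact le_rfl
  have hwp : ∀ p : Nat.Primes, w p = ‖cb a τ c X r p‖ ^ 2 := fun p => by
    simp only [hw]
    rw [if_pos p.2]
  have hwC : ∀ n, w n ≤ C ^ 2 := by
    intro n
    by_cases hn : n.Prime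
    · have := hwp ⟨n, hn⟩
      rw [show ((⟨n, hn⟩ : Nat.Primes) : ℕ) = n from rfl] at this
      rw [this]
      exact pow_le_pow_left₀ (norm_nonneg _) (hC ⟨n, hn⟩) 2
    · simp only [hw]
      rw [if_neg hn]
      positivity
  have hm : Mean w α := by
    intro s hs
    refine (hmean s hs).congr fun L => tsum_congr fun p => ?_
    rw [hwp]
  have hwin := h3 w α hα hw0 ⟨_, hwC⟩ (h2 w α hw0 ⟨_, fun p => hwC p⟩ hm)
  obtain ⟨T₀, hT₀⟩ := h4 w hw0 hwin x₁ x₂ ε hx1 hx12 hε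
  refine ⟨T₀, fun T hT => ?_⟩
  obtain ⟨Y, hY1, hY2, hY3⟩ := hT₀ T hT
  refine ⟨Y, hY1, hY2, hY3.trans (le_of_eq ?_)⟩
  refine Finset.sum_congr rfl fun p hp => ?_
  simp only [hw]
  rw [if_pos (Finset.mem_filter.1 hp).2]

end Pool.Agent.H31.R2.DNA
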